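import Pool.Agent.W5h6.Skel.Ints

/-!
# The shadow of the polynomial Freiman-Ruzsa conjecture on a filtration with bounded layers

Let `Γ = F 0 ≥ F 1 ≥ F 2 ≥ ...` be a filtration of an abelian group whose layers `F j / F (j + 1)`
have exponent at most `m`, for example `F j = p ^ j ℤ` in the integers, `p ^ j Γ` in any group, or
the filtration of a product of such groups; the number of levels is not bounded. If a finite set
`A` has `|A + A| ≤ K |A|`, and if `A` is covered by polynomially many translates of a convex coset
progression `Q` of dimension `O (log K)` (Q1), then, up to a factor polynomial in `K`, the classes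
of a dense subset of `A` modulo all the `F j` are those of `Q`: above each class modulo `F j` they
are a coset of a subgroup `W j / F (j + 1)` of the layer, and, for a progression, the multiplication
by `n` maps `W j` to `W (j + 1)` except at few levels. The theorem below proves this consequence of
Q1, with polynomial bounds, for all groups, filtrations and sets.

For `Γ = ℤ` and `F j = p ^ j ℤ` it says (file `Pool/Agent/W5h6/Skel/Ints.lean`, theorem `ints`): there
are a set `D` of natural numbers and `B ⊆ A` with `|A| ≤ K ^ C |B|`, `C = O (log p)`, such that for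
`j` not in `D` two elements of `B` congruent modulo `p ^ j` are congruent modulo `p ^ (j + 1)`, for
all `J` the set `B` has at least `K ^ (-C) p ^ (number of elements of D below J)` classes modulo
`p ^ J`, and membership in `D` changes at most `C log K / log p` times.

Without a bound for the number of levels, applying the theorem of Gowers, Green, Manners and Tao to
each level of the filtration gives nothing, as the losses are multiplied. Here they are summed
first: by submodularity the increments of the entropies of `X + Y` and of `X` over the levels,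
conditioned on the past of both, add up to `O (log K)` (chain rule), entropic Marton with bounded
torsion is applied at each level (with exponent `O (log m)`, which is the true order already for one
level), and the subgroups found above the different classes are replaced by one for each level; a
dense subset `B` is then chosen in the tree of classes by a weighting argument.
-/

set_option autoImplicit false

universe u

namespace Pool.Agent.Results.MP_dd2a7c_co.FiltrationSkeleton

open Finset
open scoped Pointwise

/-- Let `F` be a decreasing sequence of subgroups of an abelian group `Γ` such that for every `j`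
some `k` with `1 ≤ k ≤ m` has `k F j ≤ F (j + 1)`, and let `A` be finite and nonempty with
`|A + A| ≤ K |A|`. There are subgroups `F (j + 1) ≤ W j ≤ F j` with finite quotients
`W j / F (j + 1)` and a nonempty `B ⊆ A` with `|A| ≤ K ^ C |B|`, `C = 400000 (log m + 1)`, such that

* two elements of `B` congruent modulo `F j` are congruent modulo `W j`;
* for every `J`, the product of the `|W j / F (j + 1)|`, `j < J`, is at most `K ^ C` times the
  number of classes of `B` modulo `F J`;
* if `n F j ≤ F (j + 1)` for all `j`, then `n W j ≤ W (j + 1)` up to indices whose product is at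
  most `K ^ C'`, `C' = 400000 (log m + log n + 2)`; if in addition the multiplication by `n` is
  injective from `F j / F (j + 1)` to `F (j + 1) / F (j + 2)` for all `j`, then
  `|W j / F (j + 1)| ≤ K ^ C'` for every `j`, and `W (j + 1) ≤ n W j + F (j + 2)` up to indices whose
  product is at most `K ^ (2 C')`.

The logarithms are rounded down to integers and have base 2. -/
theorem result (Γ : Type u) [AddCommGroup Γ] [DecidableEq Γ] (m : ℕ) (F : ℕ → AddSubgroup Γ)
    (hF : Antitone F) (hm : ∀ j, ∃ k : ℕ, 1 ≤ k ∧ k ≤ m ∧ ∀ x ∈ F j, k • x ∈ F (j + 1))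
    (K : ℝ) (A : Finset Γ) (hA : A.Nonempty) (hK : ((A + A).card : ℝ) ≤ K * (A.card : ℝ)) :
    ∃ (W : ℕ → AddSubgroup Γ) (B : Finset Γ), B ⊆ A ∧ B.Nonempty ∧
      (A.card : ℝ) ≤ K ^ (400000 * (Nat.log 2 m + 1)) * (B.card : ℝ) ∧
      (∀ j, F (j + 1) ≤ W j ∧ W j ≤ F j ∧ (F (j + 1)).relIndex (W j) ≠ 0) ∧
      (∀ j, ∀ x ∈ B, ∀ y ∈ B, x - y ∈ F j → x - y ∈ W j) ∧
      (∀ J, ∏ j ∈ range J, ((F (j + 1)).relIndex (W j) : ℝ) ≤
        K ^ (400000 * (Nat.log 2 m + 1)) *
          (((QuotientAddGroup.mk : Γ → Γ ⧸ F J) '' (B : Set Γ)).ncard : ℝ)) ∧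
      (∀ n : ℕ, (∀ j, ∀ x ∈ F j, n • x ∈ F (j + 1)) →
        (∀ j, (W (j + 1)).relIndex (W (j + 1) ⊔ (W j).map (nsmulAddMonoidHom n)) ≠ 0) ∧
        (∀ J, ∏ j ∈ range J,
          ((W (j + 1)).relIndex (W (j + 1) ⊔ (W j).map (nsmulAddMonoidHom n)) : ℝ) ≤
            K ^ (400000 * (Nat.log 2 m + Nat.log 2 n + 2))) ∧
        ((∀ j, ∀ x ∈ F j, n • x ∈ F (j + 2) → x ∈ F (j + 1)) →
          (∀ j, ((F (j + 1)).relIndex (W j) : ℝ) ≤
            K ^ (400000 * (Nat.log 2 m + Nat.log 2 n + 2))) ∧
          (∀ j, (F (j + 2) ⊔ (W j).map (nsmulAddMonoidHom n)).relIndex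
            (W (j + 1) ⊔ (W j).map (nsmulAddMonoidHom n)) ≠ 0) ∧
          ∀ J, ∏ j ∈ range J, ((F (j + 2) ⊔ (W j).map (nsmulAddMonoidHom n)).relIndex
            (W (j + 1) ⊔ (W j).map (nsmulAddMonoidHom n)) : ℝ) ≤
              K ^ (2 * (400000 * (Nat.log 2 m + Nat.log 2 n + 2))))) := by
  have hK1 := W5h6.Skel.one_le_K' hA hK
  obtain ⟨W, B, hBA, hBne, h1, h2, h3, h4, h5⟩ := W5h6.Skel.gen_dec (m := m) (F := F) hF hm hA hK
  refine ⟨W, B, hBA, hBne, ?_, h2, h3, ?_, ?_⟩
  · refine h1.trans ?_
    gcongr
    norm_num
  · intro J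
    have hcl : ((QuotientAddGroup.mk : Γ → Γ ⧸ F J) '' (B : Set Γ)).ncard =
        W5h6.Skel.classes (F J) B := by
      unfold W5h6.Skel.classes
      rw [← Set.ncard_coe_finset]
      push_cast
      rfl
    rw [hcl]
    refine (h4 J).trans ?_
    gcongr
    norm_num
  · intro n hn
    obtain ⟨h6, h7⟩ := h5 n hn
    have hb : ∀ J, ∏ j ∈ range J,
        ((W (j + 1)).relIndex (W (j + 1) ⊔ (W j).map (nsmulAddMonoidHom n)) : ℝ) ≤
          K ^ (400000 * (Nat.log 2 m + Nat.log 2 n + 2)) := by
      intro J
      refine (h7 J).trans ?_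
      gcongr
      omega
    refine ⟨h6, hb, fun hinj => ?_⟩
    obtain ⟨h8, h9⟩ := W5h6.Skel.layers_bound (F := F) (W := W) (n := n) (K := K) hK1
      (a := 369041 * (Nat.log 2 m + 1)) (N := B.card) h2 hn hinj (fun J => (h4 J).trans (by
        refine mul_le_mul_of_nonneg_left ?_ (by positivity)
        exact_mod_cast W5h6.Skel.classes_le_card _ _)) h6 hb
    refine ⟨h8, fun j h0 => ?_, h9⟩
    have g4 := W5h6.Skel.layers (F := F) (W := W) (n := n) h2 hn hinj j
    rw [h0, mul_zero] at g4
    rcases Nat.mul_eq_zero.1 g4 with g5 | g5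
    · exact (h2 (j + 1)).2.2 g5
    · exact h6 j g5

end Pool.Agent.Results.MP_dd2a7c_co.FiltrationSkeleton
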