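import Mathlib
import Pool.Agent.W5h20.Sym.Ex

/-!
# The polynomial Freiman-Ruzsa conjecture: sets with symmetries

Let `Γ` be any abelian group, `G` a group of automorphisms of `Γ`, and let `A ⊆ Γ` be finite and
nonempty with `|A + g A| ≤ K |A|` for all `g ∈ G`, where `G` is finite, or `A` has only finitely many
images under `G` up to translation. Then there is a subgroup `W` of `Γ` which is invariant under `G`,
has rank at most `700 log K` (it contains at most `700 log K` elements such that each element of `W` has
a positive multiple in the group which they generate), with `Γ / W` torsion-free, and `A` is covered by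
`K ^ 700` translates of `W`. If `W` has exponent `m` (in particular if there is no other invariant
subgroup of rank at most `700 log K` with a torsion-free quotient) then the conclusion of Q1 holds for
`A`, with a constant which depends only on `m`.

Two examples (`cyclotomic_case`, `permutation_case` in `Pool.Agent.W5h20.Sym.Ex`).
1. `F` a field of characteristic `0`, `ζ` a primitive `n`-th root of unity in `F`, `A ⊆ F` with
   `|A + ζ ^ j A| ≤ K |A|` for all `j`, and `φ(n) > 700 log K`. Then `|A| ≤ K ^ 700`.
2. `A ⊆ Γ ^ n` with `|A + π A| ≤ K |A|` for all permutations `π` of the `n` coordinates, and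
   `n - 1 > 700 log K`. Then `A` is covered by `K ^ 700` translates of the group of all `x ∈ Γ ^ n` for
   which all `x i - x j` are torsion elements.

Proof. By the weak Marton theorem of the starting library (`H137.Weak`) there is a subspace `V₀` of
`E = ℚ ⊗ Γ` of dimension `≤ 480 log K + 1` such that `A` is in few cosets of it. Let `h (g, V)` be the
entropy of `g x` modulo `V` for `x` uniform on `A`. It is a submodular function of `V`, and
`h (g, V₀) ≤ 186 log K` for all `g ∈ G` because `|A + g A| ≤ K |A|`. By averaging over the (finitely many)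
functions `h (g, ·)` and by submodularity there is an invariant subspace `V` at which
`dim V + h (1, V)` is at most `dim V₀ + 186 log K` (`core` in `Sym.Lat`).
-/

set_option autoImplicit false

namespace Pool.Agent.Results.MP_dd2a7c_co.InvariantSubgroups

open Finset Pool.Agent.Y806.DF Pool.Agent.R92.Star Pool.Agent.R849.IS Pool.Agent.W5h20.Sym
open scoped Pointwise

universe u v

theorem result (m : ℕ) (hm : 0 < m) : ∃ C : ℝ, ∀ (Γ : Type u) [AddCommGroup Γ] [DecidableEq Γ]
    (G : Type v) [Group G] [DistribMulAction G Γ] (K : ℝ) (A : Finset Γ), A.Nonempty →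
    FinTrans G A → (∀ g : G, ((A + g • A).card : ℝ) ≤ K * A.card) →
    ∃ (W : AddSubgroup Γ) (T : Finset Γ), Small G (700 * Real.log K) W ∧
      T ⊆ A ∧ (T.card : ℝ) ≤ K ^ 700 ∧ (∀ a ∈ A, ∃ t ∈ T, a - t ∈ W) ∧
      ((∀ x ∈ W, m • x = 0) → Concl C K A) := by
  obtain ⟨C, hC⟩ := torsion_concl.{u} m hm
  obtain ⟨C', hC'⟩ := transferN.{u} C 700
  refine ⟨C', ?_⟩
  intro Γ _ _ G _ _ K A hA hG hK
  classical
  have hKid : ((A + A).card : ℝ) ≤ K * A.card := by
    have := hK 1
    rwa [one_smul] at this
  obtain ⟨W, T, hsm, hTA, hT, hcov⟩ := small_inv hA hG hK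
  refine ⟨W, T, hsm, hTA, hT, hcov, ?_⟩
  intro hW
  obtain ⟨t, ht⟩ := popular_sec hA hT W hcov
  exact hC' Γ W (fun L S hS hL => hC W (fun x => Subtype.ext (by simpa using hW x x.2)) L S hS hL)
    K A t hA hKid ht

end Pool.Agent.Results.MP_dd2a7c_co.InvariantSubgroups
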