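import Pool.Agent.W5h6.LocalDil.Main
import Pool.Agent.TH414.UD.Q1

set_option autoImplicit false
open scoped Pointwise

universe u

namespace Pool.Agent.Results.MP_dd2a7c_co.LocalDilates

/-- Polynomially many dilates suffice.

Let `Γ` be an abelian group and `A ⊆ Γ` finite and nonempty with `|A + n A| ≤ K |A|` for the
natural numbers `n ≤ (2 K) ^ 305` only, where `n A = {n a : a ∈ A}`. Then `A` is covered by at most
`K` cosets of a finite subgroup. If `Γ` has no element of prime order `p ≤ (2 K) ^ 16`, then `A` is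
covered by at most `K` cosets of a finite subgroup of order at most `2 K |A|` and by at most
`8 K ^ 2` translates of a centred convex coset progression of dimension `1` and volume at most
`|A|`. If `p Γ = 0` for some prime `p`, then, with exponents that do not depend on `p`, `A` is
covered by at most `K ^ 5406` cosets of a subgroup of order at most `2 K ^ 5404 |A|`, and by at most
`8 K ^ 10812` translates of a centred convex coset progression of dimension `1` and volume at most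
`|A|`. -/
theorem result (Γ : Type u) [AddCommGroup Γ] [DecidableEq Γ] (K : ℝ) (hK : 1 ≤ K) (A : Finset Γ)
    (hA : A.Nonempty)
    (hdil : ∀ n : ℕ, (n : ℝ) ≤ (2 * K) ^ 305 →
      ((A + A.image (fun a => n • a)).card : ℝ) ≤ K * (A.card : ℝ)) :
    (∃ (H : AddSubgroup Γ) (T : Finset Γ), Finite H ∧ (T.card : ℝ) ≤ K ∧
      ∀ a ∈ A, ∃ t ∈ T, a - t ∈ H) ∧
    ((∀ p : ℕ, p.Prime → (p : ℝ) ≤ (2 * K) ^ 16 → ∀ x : Γ, p • x = 0 → x = 0) →
      (∃ (H : AddSubgroup Γ) (T : Finset Γ), Finite H ∧ (Nat.card H : ℝ) ≤ 2 * K * A.card ∧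
        (T.card : ℝ) ≤ K ∧ ∀ a ∈ A, ∃ t ∈ T, a - t ∈ H) ∧
      (∃ (B : Set (Fin 1 → ℝ)) (ψ : (Fin 1 → ℤ) →+ Γ) (H : AddSubgroup Γ) (T : Finset Γ),
        Convex ℝ B ∧ IsCompact B ∧ (interior B).Nonempty ∧ (∀ x ∈ B, -x ∈ B) ∧
        Finite H ∧
        {x : Fin 1 → ℤ | (fun i => (x i : ℝ)) ∈ B}.ncard * Nat.card H ≤ A.card ∧
        (T.card : ℝ) ≤ 8 * K ^ 2 ∧
        ∀ a ∈ A, ∃ t ∈ T, ∃ x : Fin 1 → ℤ, (fun i => (x i : ℝ)) ∈ B ∧
          ∃ h ∈ H, a = t + ψ x + h)) ∧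
    (∀ p : ℕ, p.Prime → (∀ x : Γ, p • x = 0) →
      (∃ (H : AddSubgroup Γ) (T : Finset Γ), Finite H ∧
        (Nat.card H : ℝ) ≤ 2 * K ^ 5404 * A.card ∧
        (T.card : ℝ) ≤ K ^ 5406 ∧ ∀ a ∈ A, ∃ t ∈ T, a - t ∈ H) ∧
      (∃ (B : Set (Fin 1 → ℝ)) (ψ : (Fin 1 → ℤ) →+ Γ) (H : AddSubgroup Γ) (T : Finset Γ),
        Convex ℝ B ∧ IsCompact B ∧ (interior B).Nonempty ∧ (∀ x ∈ B, -x ∈ B) ∧
        Finite H ∧
        {x : Fin 1 → ℤ | (fun i => (x i : ℝ)) ∈ B}.ncard * Nat.card H ≤ A.card ∧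
        (T.card : ℝ) ≤ 8 * K ^ 10812 ∧
        ∀ a ∈ A, ∃ t ∈ T, ∃ x : Fin 1 → ℤ, (fun i => (x i : ℝ)) ∈ B ∧
          ∃ h ∈ H, a = t + ψ x + h)) := by
  rename_i d
  have hd : d = (fun a b => Classical.propDecidable (a = b)) := Subsingleton.elim _ _
  subst hd
  have hA0 : (0 : ℝ) < A.card := by exact_mod_cast hA.card_pos
  have hK2 : (0 : ℝ) ≤ (2 * K) ^ 305 := by positivity
  obtain ⟨J, hJ1, hJ2⟩ : ∃ J : ℕ, (J : ℝ) ≤ (2 * K) ^ 305 ∧ (2 * K) ^ 304 ≤ (J : ℝ) := by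
    refine ⟨⌊(2 * K) ^ 305⌋₊, Nat.floor_le hK2, ?_⟩
    have h1 := Nat.lt_floor_add_one ((2 * K) ^ 305)
    have h2 : (1 : ℝ) ≤ (2 * K) ^ 304 := one_le_pow₀ (by linarith)
    have h3 : (2 * K) ^ 305 = (2 * K) ^ 304 * (2 * K) := pow_succ _ _
    have h4 : (2 * K) ^ 304 * 2 ≤ (2 * K) ^ 304 * (2 * K) :=
      mul_le_mul_of_nonneg_left (by linarith) (by linarith)
    rw [← h3] at h4
    linarith
  have hL : Pool.Agent.W5h6.LocDil.LD K J A := fun n hn =>
    hdil n (le_trans (by exact_mod_cast hn) hJ1)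
  have h2 : (∀ p : ℕ, p.Prime → (p : ℝ) ≤ (2 * K) ^ 16 → ∀ x : Γ, p • x = 0 → x = 0) →
      ∃ U : AddSubgroup Γ, Finite U ∧ ((Pool.Agent.TH414.Dil.bar U A).card : ℝ) ≤ K ∧
      (Nat.card U : ℝ) ≤ 2 * K * A.card := by
    intro hΓ
    refine Pool.Agent.W5h6.LocDil.structure_local A hA hL hJ2 ?_
    rw [← mul_pow]
    exact hΓ
  refine ⟨?_, fun hΓ => ⟨?_, ?_⟩, fun p hp hpΓ => ?_⟩
  · obtain ⟨U, hfin, hc⟩ := Pool.Agent.W5h6.LocDil.start_local A hA hL
      (le_trans (pow_le_pow_right₀ (by linarith) (by norm_num)) hJ2)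
    obtain ⟨X, hX, hcov⟩ := Pool.Agent.TH414.Dil.reps U A
    exact ⟨U, X, hfin, by rw [hX]; exact hc, hcov⟩
  · obtain ⟨U, hfin, hc, hU⟩ := h2 hΓ
    obtain ⟨X, hX, hcov⟩ := Pool.Agent.TH414.Dil.reps U A
    exact ⟨U, X, hfin, hU, by rw [hX]; exact hc, hcov⟩
  · obtain ⟨U, hfin, hc, hU⟩ := h2 hΓ
    exact Pool.Agent.TH414.Dil.q1_form A hA K hK U hc hU
  · have hK4 : (0 : ℝ) ≤ K ^ 5404 := by positivity
    by_cases hpK : (p : ℝ) ≤ (2 * K) ^ 16
    · -- all the dilates are among the first ones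
      have hred : ∀ n : ℕ, (fun a : Γ => n • a) = (fun a : Γ => (n % p) • a) ∧
          ((n % p : ℕ) : ℝ) ≤ (2 * K) ^ 305 := by
        intro n
        have h1 : ∀ a : Γ, n • a = (n % p) • a := by
          intro a
          conv_lhs => rw [← Nat.div_add_mod n p]
          rw [add_nsmul, mul_nsmul, hpΓ a, smul_zero, zero_add]
        refine ⟨funext h1, ?_⟩
        have h4 : ((n % p : ℕ) : ℝ) ≤ p := by exact_mod_cast (Nat.mod_lt n hp.pos).le
        refine h4.trans (hpK.trans ?_)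
        exact pow_le_pow_right₀ (by linarith) (by norm_num)
      obtain ⟨⟨H, T, r1, r2, r3, r4⟩, h4⟩ := Pool.Agent.TH414.UD.q1A A hA K (fun n => by
        have h5 := hdil _ (hred n).2
        rwa [← (hred n).1] at h5)
      exact ⟨⟨H, T, r1, r2.trans (by nlinarith), r3, r4⟩, h4⟩
    · have hΓ : ∀ q : ℕ, q.Prime → (q : ℝ) ≤ (2 * K) ^ 16 → ∀ x : Γ, q • x = 0 → x = 0 := by
        intro q hq hqK x hx
        have hpq : q ≠ p := by
          rintro rfl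
          exact hpK hqK
        have h3 : addOrderOf x ∣ q := addOrderOf_dvd_of_nsmul_eq_zero hx
        have h4 : addOrderOf x ∣ p := addOrderOf_dvd_of_nsmul_eq_zero (hpΓ x)
        have h5 : addOrderOf x ∣ 1 := by
          have h6 := Nat.dvd_gcd h3 h4
          rwa [(Nat.coprime_primes hq hp).2 hpq] at h6
        exact AddMonoid.addOrderOf_eq_one_iff.1 (Nat.dvd_one.1 h5)
      obtain ⟨U, hfin, hc, hU⟩ := h2 hΓ
      obtain ⟨X, hX, hcov⟩ := Pool.Agent.TH414.Dil.reps U A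
      refine ⟨⟨U, X, hfin, hU.trans ?_, ?_, hcov⟩, ?_⟩
      · have h3 : K ≤ K ^ 5404 := le_self_pow₀ hK (by norm_num)
        exact mul_le_mul_of_nonneg_right (by linarith) hA0.le
      · rw [hX]
        exact hc.trans (le_self_pow₀ hK (by norm_num))
      · obtain ⟨B, ψ, H', T', r1, r2, r3, r4, r5, r6, r7, r8⟩ :=
          Pool.Agent.TH414.Dil.q1_form A hA K hK U hc hU
        refine ⟨B, ψ, H', T', r1, r2, r3, r4, r5, r6, r7.trans ?_, r8⟩
        have h3 : K ^ 2 ≤ K ^ 10812 := pow_le_pow_right₀ hK (by norm_num)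
        linarith

end Pool.Agent.Results.MP_dd2a7c_co.LocalDilates
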