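import Mathlib
import Pool.Agent.W5h20.Pr.Mix

/-!
# The polynomial Freiman-Ruzsa conjecture: near products

Let `Γ` be any abelian group, `ι` a finite set of coordinates, and let `A ⊆ Γ ^ ι` be finite and
nonempty. For a set `I` of coordinates let `P_I` be the projection to these coordinates. Let `G` be any
group of permutations of the coordinates with `|A + π A| ≤ K |A|` for all `π` in `G` (with `G` trivial
this says `|A + A| ≤ K |A|`). Assume that `A` is nearly a product in all ways,
`|P_I A| |P_{Iᶜ} A| ≤ K |A|` for all `I` (this holds if `|A + P_I A| ≤ K |A|`, see `near_of_proj` in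
`Pool.Agent.W5h20.Pr.Signs`), or that `Γ` has no element of order `2` and
`|A + (P_I - P_{Iᶜ}) A| ≤ K |A|` for all `I` (sign changes). Let `κ ≥ 1`, and assume that each
coordinate `i` has a small sum with `A`, `|A + P_{i} A| ≤ κ |A|`, or has a large orbit `G i`, so large
that `2 K ≤ κ ^ |G i|`. Then `A` is covered by `(2 K) ^ (C θ)` translates of a centred convex coset
progression of dimension at most `C θ log (2 K)` and volume at most `|A|`, where
`θ = 1 + log (1 + log κ)`. Here `C` is absolute. So the conclusion of Q1 holds for such sets `A`, with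
a constant depending only on `κ` (`concl_of_conclX` in `Pool.Agent.W5h20.Pr.Expl`), for all `K`, all
`Γ` and all numbers of coordinates.

Two extreme cases: `G` trivial and `|A + P_{i} A| ≤ κ |A|` for all `i`; and `G` transitive, `n`
coordinates and `log κ = log (2 K) / n`, where no hypothesis on single coordinates is needed.

Proof. Let `x` be uniform on `A`. The entropies of the coordinates of `x` are nearly independent: by the
near product hypothesis and submodularity, and by averaging over the sets of coordinates, `x` is close
(in the entropic Ruzsa distance, up to `O(log K)`) to a vector `y` with independent coordinates, where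
each `y i` is a mixture of conditional laws of `x i` (`Near`, `Symm`, `Law`). By averaging over `G` the
laws of the `y i` can be taken to be the same in each orbit (`Orb`), so that the number of elements of
the orbit of `i` times the distance from `y i` to itself is `O(log K)`; the local hypothesis bounds
this distance by `O(log κ)` (`Local`). The known near-polynomial theorem (`NearPFR` of the starting
library, exponent `1 + log (1 + log 2K)`) is applied to each coordinate (`Block`), with a total loss
`O(log K) (1 + log (1 + log κ))`; the progressions are multiplied together, and `A` is related to the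
product by an entropic Balog-Szemeredi-Gowers argument (`Asm`, `Fin`).
-/

set_option autoImplicit false

namespace Pool.Agent.Results.MP_dd2a7c_co.NearProducts

open Finset Pool.Agent.W5h20.Pr
open scoped Pointwise

universe u v

theorem result : ∃ C : ℝ, ∀ (ι : Type u) [Fintype ι] (Γ : Type v) [AddCommGroup Γ]
    [DecidableEq (ι → Γ)] (G : Subgroup (Equiv.Perm ι)) (K κ : ℝ) (A : Finset (ι → Γ)),
    A.Nonempty → 1 ≤ κ →
    (∀ π ∈ G, ((A + A.image (fun a i => a (π i))).card : ℝ) ≤ K * A.card) →
    ((∀ I : Set ι, ((A.image I.indicator).card : ℝ) * (A.image Iᶜ.indicator).card ≤ K * A.card) ∨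
      ((∀ x : Γ, 2 • x = 0 → x = 0) ∧
        ∀ I : Set ι, ((A + A.image (fun a => I.indicator a - Iᶜ.indicator a)).card : ℝ) ≤
          K * A.card)) →
    (∀ i : ι, ((A + A.image (Set.indicator {i})).card : ℝ) ≤ κ * A.card ∨
      2 * K ≤ κ ^ {j | ∃ π ∈ G, π i = j}.ncard) →
    ∃ (d : ℕ) (B : Set (Fin d → ℝ)) (ψ : (Fin d → ℤ) →+ (ι → Γ)) (H : AddSubgroup (ι → Γ))
      (T : Finset (ι → Γ)),
      (d : ℝ) ≤ C * (1 + Real.log (1 + Real.log κ)) * Real.log (2 * K) ∧
      Convex ℝ B ∧ IsCompact B ∧ (interior B).Nonempty ∧ (∀ x ∈ B, -x ∈ B) ∧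
      Finite H ∧
      {x : Fin d → ℤ | (fun i => (x i : ℝ)) ∈ B}.ncard * Nat.card H ≤ A.card ∧
      (T.card : ℝ) ≤ (2 * K) ^ (C * (1 + Real.log (1 + Real.log κ))) ∧
      ∀ a ∈ A, ∃ t ∈ T, ∃ x : Fin d → ℤ, (fun i => (x i : ℝ)) ∈ B ∧
        ∃ h ∈ H, a = t + ψ x + h := by
  obtain ⟨C, hC⟩ := mixed_explicit.{u, v}
  exact ⟨C, fun ι _ Γ _ _ G K κ A hA hκ hperm hsplit hloc =>
    hC ι Γ G K κ A hA hκ hperm hsplit hloc⟩

end Pool.Agent.Results.MP_dd2a7c_co.NearProducts
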